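import Pool.Agent.H95.NV.Targets1

/-!
# MP_347b49_nt: row SMV of `nva_modules` (helper70)
-/

set_option autoImplicit false

open NumberField
open scoped nonZeroDivisors

namespace Pool.Agent.H70.NV

open Pool.Agent.H95.NV
open Pool.Agent.H65.CM4 (Pl rv nm dk dg)
open Pool.Agent.H95.CM (T_NTP)

variable {k K : Type} [Field k] [NumberField k] [Field K] [NumberField K] [Algebra k K]

/-- the norm of a multiple of an ideal -/
theorem nm_mul_le (a f : Ideal (𝓞 k)) (q : k) (hf : f ≠ ⊥) (hq : q ≠ 0)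
    (h : ∀ t ∈ f, ∃ s ∈ a, (s : k) = q * (t : k)) :
    nm a ≤ |((Algebra.norm ℚ q : ℚ) : ℝ)| * nm f := by
  obtain ⟨n, m, hm, hnm⟩ : ∃ (n m : 𝓞 k), m ≠ 0 ∧ q = (n : k) / (m : k) := by
    obtain ⟨n, m, hm, hnm⟩ := IsFractionRing.div_surjective (A := 𝓞 k) q
    exact ⟨n, m, nonZeroDivisors.ne_zero hm, hnm.symm⟩
  have hm' : (m : k) ≠ 0 := by
    intro h0
    exact hm (RingOfIntegers.coe_eq_zero_iff.1 h0)
  have hn : n ≠ 0 := by
    rintro rfl
    apply hq
    rw [hnm]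
    simp
  -- the ideal `q f`
  let J : Ideal (𝓞 k) :=
    { carrier := {s | ∃ t ∈ f, (s : k) = q * (t : k)}
      zero_mem' := ⟨0, f.zero_mem, by simp⟩
      add_mem' := by
        rintro s s' ⟨t, ht, hs⟩ ⟨t', ht', hs'⟩
        refine ⟨t + t', f.add_mem ht ht', ?_⟩
        have e1 : ((s + s' : 𝓞 k) : k) = (s : k) + (s' : k) := rfl
        have e2 : ((t + t' : 𝓞 k) : k) = (t : k) + (t' : k) := rfl
        rw [e1, e2, hs, hs']
        ring
      smul_mem' := by
        rintro c s ⟨t, ht, hs⟩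
        refine ⟨c * t, f.mul_mem_left _ ht, ?_⟩
        have e1 : ((c • s : 𝓞 k) : k) = (c : k) * (s : k) := rfl
        have e2 : ((c * t : 𝓞 k) : k) = (c : k) * (t : k) := rfl
        rw [e1, e2, hs]
        ring }
  have hJa : J ≤ a := by
    rintro s ⟨t, ht, hs⟩
    obtain ⟨s', hs', e⟩ := h t ht
    have : s = s' := by
      apply RingOfIntegers.ext
      rw [hs, e]
    rw [this]
    exact hs'
  have hJ : Ideal.span {m} * J = Ideal.span {n} * f := by
    apply le_antisymm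
    · rw [Ideal.span_singleton_mul_le_iff]
      rintro s ⟨t, ht, hs⟩
      rw [Ideal.mem_span_singleton_mul]
      refine ⟨t, ht, ?_⟩
      apply RingOfIntegers.ext
      have e1 : ((m * s : 𝓞 k) : k) = (m : k) * (s : k) := rfl
      have e2 : ((n * t : 𝓞 k) : k) = (n : k) * (t : k) := rfl
      rw [e1, e2, hs, hnm]
      field_simp
    · rw [Ideal.span_singleton_mul_le_iff]
      intro t ht
      obtain ⟨s, hs, e⟩ := h t ht
      rw [Ideal.mem_span_singleton_mul]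
      refine ⟨s, ⟨t, ht, e⟩, ?_⟩
      apply RingOfIntegers.ext
      have e1 : ((m * s : 𝓞 k) : k) = (m : k) * (s : k) := rfl
      have e2 : ((n * t : 𝓞 k) : k) = (n : k) * (t : k) := rfl
      rw [e1, e2, e, hnm]
      field_simp
  have hN := congrArg Ideal.absNorm hJ
  rw [map_mul, map_mul, Ideal.absNorm_span_singleton, Ideal.absNorm_span_singleton] at hN
  have hn1 : ∀ y : 𝓞 k, (((Algebra.norm ℤ y).natAbs : ℕ) : ℝ) =
      |((Algebra.norm ℚ (y : k) : ℚ) : ℝ)| := by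
    intro y
    rw [← Algebra.coe_norm_int y, Nat.cast_natAbs]
    push_cast
    rfl
  have hqn : |((Algebra.norm ℚ q : ℚ) : ℝ)| * |((Algebra.norm ℚ (m : k) : ℚ) : ℝ)| =
      |((Algebra.norm ℚ (n : k) : ℚ) : ℝ)| := by
    rw [← abs_mul, ← Rat.cast_mul, ← map_mul, hnm, div_mul_cancel₀ _ hm']
  have hN' : |((Algebra.norm ℚ (m : k) : ℚ) : ℝ)| * (Ideal.absNorm J : ℝ) =
      |((Algebra.norm ℚ (n : k) : ℚ) : ℝ)| * (Ideal.absNorm f : ℝ) := by
    rw [← hn1, ← hn1]
    exact_mod_cast hN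
  have hm0 : 0 < |((Algebra.norm ℚ (m : k) : ℚ) : ℝ)| := by
    rw [abs_pos, Rat.cast_ne_zero, Algebra.norm_ne_zero_iff]
    exact hm'
  have hJN : (Ideal.absNorm J : ℝ) = |((Algebra.norm ℚ q : ℚ) : ℝ)| * (Ideal.absNorm f : ℝ) := by
    have : |((Algebra.norm ℚ (m : k) : ℚ) : ℝ)| * (Ideal.absNorm J : ℝ) =
        |((Algebra.norm ℚ (m : k) : ℚ) : ℝ)| *
          (|((Algebra.norm ℚ q : ℚ) : ℝ)| * (Ideal.absNorm f : ℝ)) := by
      rw [hN', ← hqn]
      ring
    exact mul_left_cancel₀ hm0.ne' this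
  have hJ0 : J ≠ ⊥ := by
    intro h0
    rw [h0, Ideal.mul_bot, eq_comm, Ideal.mul_eq_bot, Ideal.span_singleton_eq_bot] at hJ
    rcases hJ with hJ | hJ
    · exact hn hJ
    · exact hf hJ
  have hdvd : Ideal.absNorm a ∣ Ideal.absNorm J := Ideal.absNorm_dvd_absNorm_of_le hJa
  have hle : Ideal.absNorm a ≤ Ideal.absNorm J := by
    apply Nat.le_of_dvd _ hdvd
    rw [Nat.pos_iff_ne_zero]
    exact fun h0 => hJ0 (Ideal.absNorm_eq_zero_iff.1 h0)
  unfold nm
  rw [← hJN]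
  exact_mod_cast hle

/-- Row SMV. -/
theorem pf_SMV (hCOO : T_COO) (hDSC : T_DSC) (hTCX : T_TCX) (hNTP : T_NTP) : T_SMV := by
  intro k K _ _ _ _ _ _ _ f D b δ hKD a z hz hlt
  have hTC : IsTotallyComplex K := hTCX k K D δ hKD.pos hKD.sq
  obtain ⟨hN1, hN2, hN3⟩ := hNTP k K
  -- coordinates of the elements of the ideal
  have key : ∀ z : 𝓞 K, z ∈ a.map (algebraMap (𝓞 k) (𝓞 K)) → ∀ c : 𝓞 K, ∃ x ∈ a, ∃ q : k,
      (∀ t ∈ f, ∃ s ∈ a, (s : k) = q * (t : k)) ∧
      ((c * z : 𝓞 K) : K) = algebraMap k K (x : k) + algebraMap k K q * w b δ := by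
    intro z hz
    unfold Ideal.map at hz
    induction hz using Submodule.span_induction with
    | mem z hz =>
      obtain ⟨y, hy, rfl⟩ := hz
      intro c
      obtain ⟨p, q, hq, e⟩ := (hKD.int (c : K)).1 ⟨c, rfl⟩
      refine ⟨p * y, a.mul_mem_left _ hy, q * (y : k), ?_, ?_⟩
      · intro t ht
        obtain ⟨s, hs⟩ := hq t ht
        refine ⟨s * y, a.mul_mem_left _ hy, ?_⟩
        have e1 : ((s * y : 𝓞 k) : k) = (s : k) * (y : k) := rfl
        rw [e1, hs]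
        ring
      · have e1 : ((c * algebraMap (𝓞 k) (𝓞 K) y : 𝓞 K) : K) =
            (c : K) * algebraMap k K (y : k) := rfl
        rw [e1, e, cmul, map_mul]
        ring
    | zero =>
      intro c
      refine ⟨0, a.zero_mem, 0, fun t _ => ⟨0, a.zero_mem, by simp⟩, ?_⟩
      simp
    | add z z' _ _ h h' =>
      intro c
      obtain ⟨x, hx, q, hq, e⟩ := h c
      obtain ⟨x', hx', q', hq', e'⟩ := h' c
      refine ⟨x + x', a.add_mem hx hx', q + q', ?_, ?_⟩
      · intro t ht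
        obtain ⟨s, hs, es⟩ := hq t ht
        obtain ⟨s', hs', es'⟩ := hq' t ht
        refine ⟨s + s', a.add_mem hs hs', ?_⟩
        have e1 : ((s + s' : 𝓞 k) : k) = (s : k) + (s' : k) := rfl
        rw [e1, es, es']
        ring
      · have e1 : ((c * (z + z') : 𝓞 K) : K) = ((c * z : 𝓞 K) : K) + ((c * z' : 𝓞 K) : K) := by
          rw [mul_add]
          rfl
        rw [e1, e, e', cadd, map_add]
        ring
    | smul d z _ h =>
      intro c
      have := h (c * d)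
      rw [smul_eq_mul, ← mul_assoc]
      exact this
  obtain ⟨x, hx, q, hq, hzx⟩ := key z hz 1
  rw [one_mul] at hzx
  by_cases hq0 : q = 0
  · refine ⟨x, hx, ?_⟩
    apply RingOfIntegers.ext
    rw [hzx, hq0, map_zero, zero_mul, add_zero]
    rfl
  exfalso
  -- the norm
  have hnorm := (hCOO k K D b δ hKD.pos hKD.sq).2.2.1 (x : k) q
  rw [← hzx] at hnorm
  have hplace : ∀ v : Pl k, rv v (D : k) * |rv v q| ^ 2 / 4 ≤ rv v (Algebra.norm k (z : K)) := by
    intro v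
    rw [hnorm]
    simp only [map_add, map_mul, map_pow, map_div₀]
    have e4 : rv v (4 : k) = 4 := map_ofNat _ 4
    rw [e4, sq_abs]
    nlinarith [sq_nonneg (rv v (x : k) + rv v (b : k) * rv v q / 2)]
  have hprod : ∏ v : Pl k, (rv v (D : k) * |rv v q| ^ 2 / 4) ≤
      ∏ v : Pl k, rv v (Algebra.norm k (z : K)) := by
    apply Finset.prod_le_prod
    · intro v _
      have := (hKD.pos v).le
      positivity
    · intro v _
      exact hplace v
  rw [← hN3, Finset.prod_div_distrib, Finset.prod_mul_distrib, Finset.prod_pow, hN2,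
    Finset.prod_const, Finset.card_univ] at hprod
  have hcard : Fintype.card (Pl k) = dg k := by
    unfold dg
    rw [IsTotallyReal.finrank k]
    have h1 := InfinitePlace.card_eq_nrRealPlaces_add_nrComplexPlaces (K := k)
    rw [IsTotallyReal.nrComplexPlaces_eq_zero k, add_zero] at h1
    exact h1
  rw [hcard] at hprod
  have hnmz : nm (Ideal.span {z}) = |((Algebra.norm ℚ (z : K) : ℚ) : ℝ)| := by
    unfold nm
    rw [Ideal.absNorm_span_singleton, ← Algebra.coe_norm_int z, Nat.cast_natAbs]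
    push_cast
    rfl
  rw [← hnmz] at hprod
  have hd := hDSC k K f D b δ hKD
  have hle := nm_mul_le a f q hKD.f_ne hq0 hq
  have hf0 : 0 < nm f := by
    unfold nm
    rw [Nat.cast_pos, Nat.pos_iff_ne_zero]
    exact fun h0 => hKD.f_ne (Ideal.absNorm_eq_zero_iff.1 h0)
  have ha0 : 0 ≤ nm a := by
    unfold nm
    positivity
  have h4 : (0 : ℝ) < 4 ^ dg k := by positivity
  rw [div_le_iff₀ h4] at hprod
  have h5 : 4 ^ dg k * (dk k : ℝ) ^ 2 * nm (Ideal.span {z}) * nm f ^ 2 <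
      |(discr K : ℝ)| * nm a ^ 2 * nm f ^ 2 :=
    mul_lt_mul_of_pos_right hlt (by positivity)
  have h6 : |(discr K : ℝ)| * nm a ^ 2 * nm f ^ 2 =
      (dk k : ℝ) ^ 2 * (∏ v : Pl k, rv v (D : k)) * nm a ^ 2 := by
    rw [← hd]
    ring
  have hD0 : 0 ≤ ∏ v : Pl k, rv v (D : k) := Finset.prod_nonneg fun v _ => (hKD.pos v).le
  have h7 : nm a ^ 2 ≤ (|((Algebra.norm ℚ q : ℚ) : ℝ)| * nm f) ^ 2 :=
    pow_le_pow_left₀ ha0 hle 2
  have h8 : (dk k : ℝ) ^ 2 * (∏ v : Pl k, rv v (D : k)) * nm a ^ 2 ≤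
      (dk k : ℝ) ^ 2 * (∏ v : Pl k, rv v (D : k)) * (|((Algebra.norm ℚ q : ℚ) : ℝ)| * nm f) ^ 2 :=
    mul_le_mul_of_nonneg_left h7 (by positivity)
  have h9 : (dk k : ℝ) ^ 2 * (∏ v : Pl k, rv v (D : k)) *
      (|((Algebra.norm ℚ q : ℚ) : ℝ)| * nm f) ^ 2 ≤
      4 ^ dg k * (dk k : ℝ) ^ 2 * nm (Ideal.span {z}) * nm f ^ 2 := by
    have := mul_le_mul_of_nonneg_left hprod
      (show (0 : ℝ) ≤ (dk k : ℝ) ^ 2 * nm f ^ 2 by positivity)
    nlinarith
  linarith

end Pool.Agent.H70.NV
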